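import Pool.Agent.R53.ConstWtB

namespace Pool.Agent.Results.MP_31d77a_co.StableRange

open R53.ConstWt

/-- `gamma n k w` is the largest number of vectors of Hamming weight `w` in a `k`-dimensional
linear subspace of `𝔽₂ⁿ`. -/
noncomputable def gamma (n k w : ℕ) : ℕ :=
  sSup {N | ∃ U : Submodule (ZMod 2) (Fin n → ZMod 2), Module.finrank (ZMod 2) U = k ∧
    N = {x : Fin n → ZMod 2 | x ∈ U ∧ hammingNorm x = w}.ncard}

theorem bdd (n k w : ℕ) : BddAbove {N | ∃ U : Submodule (ZMod 2) (Fin n → ZMod 2),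
    Module.finrank (ZMod 2) U = k ∧
    N = {x : Fin n → ZMod 2 | x ∈ U ∧ hammingNorm x = w}.ncard} := by
  refine ⟨2 ^ k, ?_⟩
  rintro N ⟨U, hU, rfl⟩
  have := count_eq U w
  rw [hU] at this
  omega

theorem nonempty (n k w : ℕ) (hkn : k ≤ n) :
    {N | ∃ U : Submodule (ZMod 2) (Fin n → ZMod 2), Module.finrank (ZMod 2) U = k ∧
    N = {x : Fin n → ZMod 2 | x ∈ U ∧ hammingNorm x = w}.ncard}.Nonempty := by
  refine ⟨_, LinearMap.range (Function.ExtendByZero.linearMap (ZMod 2) (Fin.castLEEmb hkn)), ?_,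
    rfl⟩
  rw [LinearMap.finrank_range_of_inj (extend_inj _), Module.finrank_pi, Fintype.card_fin]

theorem gamma_mem (n k w : ℕ) (hkn : k ≤ n) :
    ∃ U : Submodule (ZMod 2) (Fin n → ZMod 2), Module.finrank (ZMod 2) U = k ∧
      gamma n k w = {x : Fin n → ZMod 2 | x ∈ U ∧ hammingNorm x = w}.ncard :=
  Nat.sSup_mem (nonempty n k w hkn) (bdd n k w)

/-- Let `w = 2 ^ s * m` with `m` odd, and `s + 2 ≤ k ≤ n` (equivalently `2 ^ (k - 1)` does not
divide `w`).  Then `γ(n, k, w) ≤ 2 ^ k - 2 ^ (k - s - 1)`, and equality holds if and only if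
`k - s - 1 ≤ m` and `(2 ^ (s + 1) - 1) m + (k - s - 1) ≤ n`. -/
theorem result (n k s m : ℕ) (hm : Odd m) (hk : s + 2 ≤ k) (hkn : k ≤ n) :
    gamma n k (2 ^ s * m) ≤ 2 ^ k - 2 ^ (k - s - 1) ∧
    (gamma n k (2 ^ s * m) = 2 ^ k - 2 ^ (k - s - 1) ↔
      k - s - 1 ≤ m ∧ (2 ^ (s + 1) - 1) * m + (k - s - 1) ≤ n) := by
  obtain ⟨a, rfl⟩ : ∃ a, k = s + 1 + a := ⟨k - (s + 1), by omega⟩
  have ha : 1 ≤ a := by omega
  have hk' : s + 1 + a - s - 1 = a := by omega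
  rw [hk']
  have hpow : 2 ^ a ≤ 2 ^ (s + 1 + a) := Nat.pow_le_pow_right (by norm_num) (by omega)
  have hupper : gamma n (s + 1 + a) (2 ^ s * m) ≤ 2 ^ (s + 1 + a) - 2 ^ a := by
    obtain ⟨U, hU, hg⟩ := gamma_mem n (s + 1 + a) (2 ^ s * m) hkn
    have h1 := count_eq U (2 ^ s * m)
    have h2 := Z_lower U s m a hm hU
    rw [hU] at h1
    rw [hg]
    omega
  refine ⟨hupper, ?_, ?_⟩
  · intro h
    obtain ⟨U, hU, hg⟩ := gamma_mem n (s + 1 + a) (2 ^ s * m) hkn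
    have h1 := count_eq U (2 ^ s * m)
    rw [hU, ← hg, h] at h1
    exact equality U s m a hm ha hU (by omega)
  · rintro ⟨h1, h2⟩
    obtain ⟨U, hU, hZ⟩ := construction n s m a ha h1 h2
    have h3 := count_eq U (2 ^ s * m)
    rw [hU] at h3
    have h4 : {x : Fin n → ZMod 2 | x ∈ U ∧ hammingNorm x = 2 ^ s * m}.ncard
        ≤ gamma n (s + 1 + a) (2 ^ s * m) := le_csSup (bdd n _ _) ⟨U, hU, rfl⟩
    omega

end Pool.Agent.Results.MP_31d77a_co.StableRange
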